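import Pool.Agent.V8H85.GC.Fn

/-! state 0 of the certificate -/

set_option autoImplicit false
set_option maxRecDepth 1000000

namespace Pool.Agent.V8H3.S6C

open Pool.Agent.V8H85.GC

def t0 : BT :=
  let z : BT := .lf 0
  (.nd (.nd (.nd (.nd (.nd (.nd (.nd (.nd (.lf 0xfe) z) (.nd z z)) (.nd (.nd z z) (.nd z z))) (.nd (.nd (.nd z z) (.nd z z)) (.nd (.nd z z) (.nd z z)))) (.nd (.nd (.nd (.nd z z) (.nd z z)) (.nd (.nd z z) (.nd z z))) (.nd (.nd (.nd z z) (.nd z z)) (.nd (.nd z z) (.nd z z))))) (.nd (.nd (.nd (.nd (.nd (.lf 0xef) z) (.nd z z)) (.nd (.nd z z) (.nd z z))) (.nd (.nd (.nd z z) (.nd z z)) (.nd (.nd z z) (.nd z z)))) (.nd (.nd (.nd (.nd z z) (.nd z z)) (.nd (.nd z z) (.nd z z))) (.nd (.nd (.nd z z) (.nd z z)) (.nd (.nd z z) (.nd z z)))))) (.nd (.nd (.nd (.nd (.nd (.nd (.lf 0xfb) z) (.nd z z)) (.nd (.nd z z) (.nd z z)))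 (.nd (.nd (.nd z z) (.nd z z)) (.nd (.nd z z) (.nd z z)))) (.nd (.nd (.nd (.nd z z) (.nd z z)) (.nd (.nd z z) (.nd z z))) (.nd (.nd (.nd z z) (.nd z z)) (.nd (.nd z z) (.nd z z))))) (.nd (.nd (.nd (.nd (.nd (.lf 0xbf) z) (.nd z z)) (.nd (.nd z z) (.nd z z))) (.nd (.nd (.nd z z) (.nd z z)) (.nd (.nd z z) (.nd z z)))) (.nd (.nd (.nd (.nd z z) (.nd z z)) (.nd (.nd z z) (.nd z z))) (.nd (.nd (.nd z z) (.nd z z)) (.nd (.nd z z) (.nd z z))))))) (.nd (.nd (.nd (.nd (.nd (.nd (.nd (.lf 0xfd) z) (.nd z z)) (.nd (.nd z z) (.nd z z))) (.nd (.nd (.nd z z) (.nd z z)) (.nd (.nd z z) (.nd z z)))) (.nd (.nd (.nd (.nd z z) (.nd z z)) (.nd (.nd z z) (.nd z z))) (.nd (.nd (.nd z z) (.nd z z)) (.nd (.nd z z) (.nd z z))))) (.nd (.nd (.nd (.nd (.nd (.lf 0xdf) z) (.nd z z)) (.nd (.nd z z) (.nd z z))) (.nd (.nd (.nd z z) (.nd z z)) (.nd (.nd z z)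 (.nd z z)))) (.nd (.nd (.nd (.nd z z) (.nd z z)) (.nd (.nd z z) (.nd z z))) (.nd (.nd (.nd z z) (.nd z z)) (.nd (.nd z z) (.nd z z)))))) (.nd (.nd (.nd (.nd (.nd (.nd (.lf 0xf7) z) (.nd z z)) (.nd (.nd z z) (.nd z z))) (.nd (.nd (.nd z z) (.nd z z)) (.nd (.nd z z) (.nd z z)))) (.nd (.nd (.nd (.nd z z) (.nd z z)) (.nd (.nd z z) (.nd z z))) (.nd (.nd (.nd z z) (.nd z z)) (.nd (.nd z z) (.nd z z))))) (.nd (.nd (.nd (.nd (.nd (.lf 0x7f) z) (.nd z z)) (.nd (.nd z z) (.nd z z))) (.nd (.nd (.nd z z) (.nd z z)) (.nd (.nd z z) (.nd z z)))) (.nd (.nd (.nd (.nd z z) (.nd z z)) (.nd (.nd z z) (.nd z z))) (.nd (.nd (.nd z z) (.nd z z)) (.nd (.nd z z) (.nd z z))))))))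

def U0 : Nat := 0xff

end Pool.Agent.V8H3.S6C
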