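import Pool.Agent.V8H85.GC.Fn

/-! state 1 of the certificate -/

set_option autoImplicit false
set_option maxRecDepth 1000000

namespace Pool.Agent.V8H3.S6C

open Pool.Agent.V8H85.GC

def t1 : BT :=
  let z : BT := .lf 0
  (.nd (.nd (.nd (.nd (.nd (.nd (.nd (.nd z z) (.nd z z)) (.nd (.nd z z) (.nd z z))) (.nd (.nd (.nd z z) (.nd z z)) (.nd (.nd z z) (.nd z z)))) (.nd (.nd (.nd (.nd (.lf 0x369e09ec06658bd0569bec54238569121c086) z) (.nd z z)) (.nd (.nd z z) (.nd z z))) (.nd (.nd (.nd (.lf 0x1962a63de12812b7e0ef0ab74221404412b0f1) z) (.nd z z)) (.nd (.nd z z) (.nd z z))))) (.nd (.nd (.nd (.nd (.nd z z) (.nd z z)) (.nd (.nd z z) (.nd z z))) (.nd (.nd (.nd (.lf 0x3239010ebd0201ede2cff3144c3900391479af) z) (.nd z z)) (.nd (.nd z z) (.nd z z)))) (.nd (.nd (.nd (.nd (.lf 0x3ac180cb5e20512348cfcce0c91c86ed32aac5) z) (.nd z z)) (.nd (.nd z z) (.nd z z))) (.nd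 (.nd (.nd (.lf 0x13e6f34a14f8adca72032172663501045513a) z) (.nd z z)) (.nd (.nd z z) (.nd z z)))))) (.nd (.nd (.nd (.nd (.nd (.nd (.lf 0x19976c266e6201cecdc981d40f4346f816ca94) z) (.nd z z)) (.nd (.nd z z) (.nd z z))) (.nd (.nd (.nd z z) (.nd z z)) (.nd (.nd z z) (.nd z z)))) (.nd (.nd (.nd (.nd z z) (.nd z z)) (.nd (.nd z z) (.nd z z))) (.nd (.nd (.nd z z) (.nd z z)) (.nd (.nd z z) (.nd z z))))) (.nd (.nd (.nd (.nd (.nd (.lf 0x229d49c21e47c9480f00f540ad5e9699654b0e) z) (.nd z z)) (.nd (.nd (.lf 0x9c6eef1426dda1205200ce3a346d6c4638250) z) (.nd z z))) (.nd (.nd (.nd z z) (.nd z z)) (.nd (.nd z z) (.nd z z)))) (.nd (.nd (.nd (.nd z z) (.nd z z)) (.nd (.nd z z) (.nd z z))) (.nd (.nd (.nd z z) (.nd z z)) (.nd (.nd z z) (.nd z z))))))) (.nd (.nd (.nd (.nd (.nd (.nd (.nd (.lf 0xadc096e3b4e4bc044ab5ef1e228441442a03c) z) (.nd z z)) (.nd (.nd z z) (.nd z z)))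 (.nd (.nd (.nd z z) (.nd z z)) (.nd (.nd z z) (.nd z z)))) (.nd (.nd (.nd (.nd z z) (.nd z z)) (.nd (.nd z z) (.nd z z))) (.nd (.nd (.nd z z) (.nd z z)) (.nd (.nd z z) (.nd z z))))) (.nd (.nd (.nd (.nd (.nd (.lf 0x38960f613b098342ea864132ad47806c563b79) z) (.nd z z)) (.nd (.nd (.lf 0x3123e691c421903fab44a1060d5792e93553c3) z) (.nd z z))) (.nd (.nd (.nd (.lf 0x226883d9950dda312a267f23e83c902561396b) z) (.nd z z)) (.nd (.nd z z) (.nd z z)))) (.nd (.nd (.nd (.nd (.lf 0x1bb7c2cd740b4938ce2c3964227080e005babc) z) (.nd z z)) (.nd (.nd (.lf 0x20482d328b6492c721c3c693c50f561d724143) z) (.nd z z))) (.nd (.nd (.nd z z) (.nd z z)) (.nd (.nd z z) (.nd z z)))))) (.nd (.nd (.nd (.nd (.nd (.nd z z) (.nd z z)) (.nd (.nd z z) (.nd z z))) (.nd (.nd (.nd z z) (.nd z z)) (.nd (.nd z z) (.nd z z)))) (.nd (.nd (.nd (.nd z z) (.nd z z)) (.nd (.nd z z) (.nd z z))) (.nd (.nd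 (.nd z z) (.nd z z)) (.nd (.nd z z) (.nd z z))))) (.nd (.nd (.nd (.nd (.nd z z) (.nd z z)) (.nd (.nd z z) (.nd z z))) (.nd (.nd (.nd z z) (.nd z z)) (.nd (.nd z z) (.nd z z)))) (.nd (.nd (.nd (.nd z z) (.nd z z)) (.nd (.nd z z) (.nd z z))) (.nd (.nd (.nd z z) (.nd z z)) (.nd (.nd z z) (.nd z z))))))))

def U1 : Nat := 0x3bffefffff6fdbffefeffff7ef7fd6fd77fbff

end Pool.Agent.V8H3.S6C
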