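import Pool.Agent.V8H85.GC.Fn

/-! state 2 of the certificate -/

set_option autoImplicit false
set_option maxRecDepth 1000000

namespace Pool.Agent.V8H3.S6C

open Pool.Agent.V8H85.GC

def t2 : BT :=
  let z : BT := .lf 0
  (.nd (.nd (.nd (.nd (.nd (.nd (.nd (.nd z z) (.nd z z)) (.nd (.nd z z) (.nd z z))) (.nd (.nd (.nd z z) (.nd z z)) (.nd (.nd z z) (.nd z z)))) (.nd (.nd (.nd (.nd (.lf 0x10d21d25ca266f39f57e6a0aa131e08a08c4c6ea) z) (.nd z z)) (.nd (.nd z z) (.nd z z))) (.nd (.nd (.nd (.lf 0x116f01e14985293fb2402e8cc73868e586165d29) z) (.nd z z)) (.nd (.nd z z) (.nd z z))))) (.nd (.nd (.nd (.nd (.nd z z) (.nd z z)) (.nd (.nd z z) (.nd z z))) (.nd (.nd (.nd (.lf 0x107ad1c266462f761f2ccc228a882af38b07c551) z) (.nd z z)) (.nd (.nd z z) (.nd z z)))) (.nd (.nd (.nd (.nd (.lf 0xf498a7e328706f030df046630aa278976d5caa) z) (.nd z z)) (.nd (.nd z z) (.nd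 z z))) (.nd (.nd (.nd (.lf 0x11094d481cd7cf10fc720aa88cf5d88f08daa351) z) (.nd z z)) (.nd (.nd z z) (.nd z z)))))) (.nd (.nd (.nd (.nd (.nd (.nd (.lf 0x175d4f6c2bfb342404ba862d3688680e893758) z) (.nd z z)) (.nd (.nd z z) (.nd z z))) (.nd (.nd (.nd z z) (.nd z z)) (.nd (.nd z z) (.nd z z)))) (.nd (.nd (.nd (.nd z z) (.nd z z)) (.nd (.nd z z) (.nd z z))) (.nd (.nd (.nd z z) (.nd z z)) (.nd (.nd z z) (.nd z z))))) (.nd (.nd (.nd (.nd (.nd (.lf 0x90dc0eb67ad640493fd06228c7920219e9a2d2) z) (.nd z z)) (.nd (.nd (.lf 0x1a5042d99b9d009e25336cc655fd01c94f83aaa) z) (.nd z z))) (.nd (.nd (.nd z z) (.nd z z)) (.nd (.nd z z) (.nd z z)))) (.nd (.nd (.nd (.nd z z) (.nd z z)) (.nd (.nd z z) (.nd z z))) (.nd (.nd (.nd z z) (.nd z z)) (.nd (.nd z z) (.nd z z))))))) (.nd (.nd (.nd (.nd (.nd (.nd (.nd (.lf 0x119ccc6342198b42391222ce6ac6e86f086d8c22) z) (.nd z z)) (.nd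 (.nd z z) (.nd z z))) (.nd (.nd (.nd z z) (.nd z z)) (.nd (.nd z z) (.nd z z)))) (.nd (.nd (.nd (.nd z z) (.nd z z)) (.nd (.nd z z) (.nd z z))) (.nd (.nd (.nd z z) (.nd z z)) (.nd (.nd z z) (.nd z z))))) (.nd (.nd (.nd (.nd (.nd (.lf 0x12fc0ca35d990560e019ce4ceee1a7517333911) z) (.nd z z)) (.nd (.nd (.lf 0x43118cbde6342dc66ddc2085391290979273d9) z) (.nd z z))) (.nd (.nd (.nd (.lf 0x11e880a093d4044bd97b446842c972979136c8a3) z) (.nd z z)) (.nd (.nd z z) (.nd z z)))) (.nd (.nd (.nd (.nd (.lf 0x10a4056f60899a61637544622ed072d58682c9d8) z) (.nd z z)) (.nd (.nd (.lf 0x15bd8809f76651e9c0ab28cc127082a197d3623) z) (.nd z z))) (.nd (.nd (.nd z z) (.nd z z)) (.nd (.nd z z) (.nd z z)))))) (.nd (.nd (.nd (.nd (.nd (.nd z z) (.nd z z)) (.nd (.nd z z) (.nd z z))) (.nd (.nd (.nd z z) (.nd z z)) (.nd (.nd z z) (.nd z z)))) (.nd (.nd (.nd (.nd z z) (.nd z z)) (.nd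 (.nd z z) (.nd z z))) (.nd (.nd (.nd z z) (.nd z z)) (.nd (.nd z z) (.nd z z))))) (.nd (.nd (.nd (.nd (.nd z z) (.nd z z)) (.nd (.nd z z) (.nd z z))) (.nd (.nd (.nd z z) (.nd z z)) (.nd (.nd z z) (.nd z z)))) (.nd (.nd (.nd (.nd z z) (.nd z z)) (.nd (.nd z z) (.nd z z))) (.nd (.nd (.nd z z) (.nd z z)) (.nd (.nd z z) (.nd z z))))))))

def U2 : Nat := 0x11ffddefffffff7fff7ffeeeeffffaff9ffffffb

end Pool.Agent.V8H3.S6C
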