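import Pool.Agent.V8H3.S6C.C0
import Pool.Agent.V8H3.S6C.C1
import Pool.Agent.V8H3.S6C.C2
import Pool.Agent.V8H3.S6C.C3
import Pool.Agent.V8H3.S6C.C4
import Pool.Agent.V8H3.S6C.C5
import Pool.Agent.V8H3.S6C.C6
import Pool.Agent.V8H3.S6C.C7
import Pool.Agent.V8H3.S6C.C8
import Pool.Agent.V8H3.S6C.C9
import Pool.Agent.V8H3.S6C.C10
import Pool.Agent.V8H3.S6C.C11
import Pool.Agent.V8H3.S6C.C12
import Pool.Agent.V8H3.S6C.C13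
import Pool.Agent.V8H3.S6C.C14
import Pool.Agent.V8H3.S6C.C15
import Pool.Agent.V8H3.S6C.C16
import Pool.Agent.V8H3.S6C.FacD

/-! the list of the facets agrees with the final state -/

set_option autoImplicit false
set_option maxRecDepth 1000000

namespace Pool.Agent.V8H3.S6C

open Pool.Agent.V8H85.GC

theorem u0 : Upto t23 0 [] := upto_zero _

theorem u1 : Upto t23 1500 ([] ++ Lc0) := upto_step u0 c0

theorem u2 : Upto t23 3000 (([] ++ Lc0) ++ Lc1) := upto_step u1 c1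

theorem u3 : Upto t23 4500 ((([] ++ Lc0) ++ Lc1) ++ Lc2) := upto_step u2 c2

theorem u4 : Upto t23 6000 (((([] ++ Lc0) ++ Lc1) ++ Lc2) ++ Lc3) := upto_step u3 c3

theorem u5 : Upto t23 7500 ((((([] ++ Lc0) ++ Lc1) ++ Lc2) ++ Lc3) ++ Lc4) := upto_step u4 c4

theorem u6 : Upto t23 9000 (((((([] ++ Lc0) ++ Lc1) ++ Lc2) ++ Lc3) ++ Lc4) ++ Lc5) := upto_step u5 c5

theorem u7 : Upto t23 10500 ((((((([] ++ Lc0) ++ Lc1) ++ Lc2) ++ Lc3) ++ Lc4) ++ Lc5) ++ Lc6) := upto_step u6 c6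

theorem u8 : Upto t23 12000 (((((((([] ++ Lc0) ++ Lc1) ++ Lc2) ++ Lc3) ++ Lc4) ++ Lc5) ++ Lc6) ++ Lc7) := upto_step u7 c7

theorem u9 : Upto t23 13500 ((((((((([] ++ Lc0) ++ Lc1) ++ Lc2) ++ Lc3) ++ Lc4) ++ Lc5) ++ Lc6) ++ Lc7) ++ Lc8) := upto_step u8 c8

theorem u10 : Upto t23 15000 (((((((((([] ++ Lc0) ++ Lc1) ++ Lc2) ++ Lc3) ++ Lc4) ++ Lc5) ++ Lc6) ++ Lc7) ++ Lc8) ++ Lc9) := upto_step u9 c9

theorem u11 : Upto t23 16500 ((((((((((([] ++ Lc0) ++ Lc1) ++ Lc2) ++ Lc3) ++ Lc4) ++ Lc5) ++ Lc6) ++ Lc7) ++ Lc8) ++ Lc9) ++ Lc10) := upto_step u10 c10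

theorem u12 : Upto t23 18000 (((((((((((([] ++ Lc0) ++ Lc1) ++ Lc2) ++ Lc3) ++ Lc4) ++ Lc5) ++ Lc6) ++ Lc7) ++ Lc8) ++ Lc9) ++ Lc10) ++ Lc11) := upto_step u11 c11

theorem u13 : Upto t23 19500 ((((((((((((([] ++ Lc0) ++ Lc1) ++ Lc2) ++ Lc3) ++ Lc4) ++ Lc5) ++ Lc6) ++ Lc7) ++ Lc8) ++ Lc9) ++ Lc10) ++ Lc11) ++ Lc12) := upto_step u12 c12

theorem u14 : Upto t23 21000 (((((((((((((([] ++ Lc0) ++ Lc1) ++ Lc2) ++ Lc3) ++ Lc4) ++ Lc5) ++ Lc6) ++ Lc7) ++ Lc8) ++ Lc9) ++ Lc10) ++ Lc11) ++ Lc12) ++ Lc13) := upto_step u13 c13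

theorem u15 : Upto t23 22500 ((((((((((((((([] ++ Lc0) ++ Lc1) ++ Lc2) ++ Lc3) ++ Lc4) ++ Lc5) ++ Lc6) ++ Lc7) ++ Lc8) ++ Lc9) ++ Lc10) ++ Lc11) ++ Lc12) ++ Lc13) ++ Lc14) := upto_step u14 c14

theorem u16 : Upto t23 24000 (((((((((((((((([] ++ Lc0) ++ Lc1) ++ Lc2) ++ Lc3) ++ Lc4) ++ Lc5) ++ Lc6) ++ Lc7) ++ Lc8) ++ Lc9) ++ Lc10) ++ Lc11) ++ Lc12) ++ Lc13) ++ Lc14) ++ Lc15) := upto_step u15 c15

theorem u17 : Upto t23 25500 ((((((((((((((((([] ++ Lc0) ++ Lc1) ++ Lc2) ++ Lc3) ++ Lc4) ++ Lc5) ++ Lc6) ++ Lc7) ++ Lc8) ++ Lc9) ++ Lc10) ++ Lc11) ++ Lc12) ++ Lc13) ++ Lc14) ++ Lc15) ++ Lc16) := upto_step u16 c16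

theorem eqs : leqs [Lc0, Lc1, Lc2, Lc3, Lc4, Lc5, Lc6, Lc7, Lc8, Lc9, Lc10, Lc11, Lc12, Lc13, Lc14, Lc15, Lc16] Lf = true := by decide +kernel

theorem eqL : Lf = ((((((((((((((((([] ++ Lc0) ++ Lc1) ++ Lc2) ++ Lc3) ++ Lc4) ++ Lc5) ++ Lc6) ++ Lc7) ++ Lc8) ++ Lc9) ++ Lc10) ++ Lc11) ++ Lc12) ++ Lc13) ++ Lc14) ++ Lc15) ++ Lc16) := by
  rw [leqs_ok _ _ eqs]
  simp only [List.flatten_cons, List.flatten_nil, List.append_nil, List.nil_append, List.append_assoc]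

theorem topT : t23.top 25500 = true := by decide +kernel

theorem lenL : Nat.ble 1 (len Lf) = true := by decide +kernel

end Pool.Agent.V8H3.S6C
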