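import Pool.Agent.V8H3.S6C.D0
import Pool.Agent.V8H85.GC.Fin2

/-! the start of the certificate -/

set_option autoImplicit false
set_option maxRecDepth 1000000

namespace Pool.Agent.V8H3.S6C

open Pool.Agent.V8H85.GC

def W : List Nat := [0, 1, 2, 3, 4, 5, 6, 7]

def fs0 : List Nat := [0x706050403020100, 0x607050403020100, 0x507060403020100, 0x407060503020100, 0x307060504020100, 0x207060504030100, 0x107060504030200, 0x7060504030201]

def L0 : List Nat := [0x7f, 0xbf, 0xdf, 0xef, 0xf7, 0xfb, 0xfd, 0xfe]

theorem start : Good 7 t0 U0 := by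
  refine start_of (m := 256) (W := W) (fs := fs0) (L := L0) ?_ ?_ ?_ ?_
  · decide +kernel
  · decide +kernel
  · decide +kernel
  · decide +kernel

end Pool.Agent.V8H3.S6C
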